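import Pool.Agent.MP_92db0f_lc_alg.Machines

/-!
The world in which nondeterministic exponential time with access to the oracle and its extension is
contained in polynomial time with an oracle in `UP`.
-/

set_option autoImplicit false

namespace Pool.Agent.MP_92db0f_lc_alg

open Turing Computability Lib.helper60 MP_92db0f_lc

/-- the first halves of the strings of the oracle -/
def halves (A : Set (List Bool)) : Set (List Bool) :=
  {z | ∃ s : List Bool, s.length = z.length ∧ z ++ s ∈ A}

lemma inUP_halves (A : Set (List Bool)) (h : ∀ z s s' : List Bool, s.length = z.length →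
    s'.length = z.length → z ++ s ∈ A → z ++ s' ∈ A → s = s') : InUP A (halves A) := by
  refine ⟨fun p => p.2.length = p.1.length ∧ p.1 ++ p.2 ∈ A, Polynomial.X, ?_, ?_⟩
  · have h1 : PT (fun w : List Bool => unpair (unpair w).1) := PT_unpair.comp PT_unpair.p1
    refine ⟨fun z => z.1.1 ++ z.1.2, fun z => decide (z.1.2.length = z.1.1.length) &&
      z.2.headD false, 1, ?_, ?_, ?_⟩
    · refine PT.toTM2 (F := fun w => (unpair (unpair w).1).1 ++ (unpair (unpair w).1).2) ?_ ?_
      · exact PT.append h1.p1 h1.p2
      · intro a
        simp only [unpair_enc]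
    · refine PT.decider (F := fun w => decide ((unpair (unpair w).1).2.length =
        (unpair (unpair w).1).1.length) && (unpair w).2.headD false) ?_ ?_
      · exact PT.band (PT.neq (PT.length h1.p2) (PT.length h1.p1))
          (PT.headD PT_unpair.p2 (PT.const false))
      · intro a
        simp only [unpair_enc]
    · rintro ⟨x, y⟩
      simp [answers]
  · intro x
    refine ⟨⟨?_, ?_⟩, ?_⟩
    · rintro ⟨s, hs, hA⟩
      exact ⟨s, by simp [hs], hs, hA⟩
    · rintro ⟨s, _, hs, hA⟩
      exact ⟨s, hs, hA⟩
    · rintro y y' _ _ ⟨h1, h2⟩ ⟨h3, h4⟩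
      exact h x y y' h1 h3 h2 h4

lemma answers_length {α : Type} (O : Set (List Bool)) (q : α × List Bool → List Bool) (a : α)
    (i : ℕ) : (answers O q a i).length = i := by
  induction i with
  | zero => rfl
  | succ i ih => rw [answers, List.length_append, ih, List.length_singleton]

/-- binary search -/
lemma search {α : Type} (B : Set (List Bool)) (q : α × List Bool → List Bool) (a : α) (D c : ℕ)
    (hc : c < 2 ^ D)
    (h : ∀ u : List Bool, u.length < D → (q (a, u) ∈ B ↔ nn D u ≤ c)) :
    vb (answers B q a D) = c := by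
  classical
  have key : ∀ i ≤ D, vb (answers B q a i) * 2 ^ (D - (answers B q a i).length) ≤ c ∧
      c < (vb (answers B q a i) + 1) * 2 ^ (D - (answers B q a i).length) := by
    intro i
    induction i with
    | zero =>
      intro _
      rw [answers, vb_nil]
      simpa using hc
    | succ i ih =>
      intro hi
      obtain ⟨h1, h2⟩ := ih (by omega)
      have hl := answers_length B q a i
      rw [answers]
      exact search_step (by rw [hl]; omega) h1 h2 (by
        rw [decide_eq_true_iff]
        exact h _ (by rw [hl]; omega))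
  obtain ⟨h1, h2⟩ := key D le_rfl
  rw [answers_length, Nat.sub_self, pow_zero, mul_one] at h1
  rw [answers_length, Nat.sub_self, pow_zero, mul_one] at h2
  omega

/-- the last bit -/
lemma odd_vb (u : List Bool) : u.reverse.headD false = true ↔ Odd (vb u) := by
  induction u using List.reverseRecOn with
  | nil => simp
  | append_singleton u b _ =>
    rw [vb_append, List.reverse_append]
    cases b <;> simp

/-- **The world.** -/
theorem barrier {K : ℕ → Type} [∀ i, Field (K i)] (num : (i : ℕ) → K i → ℕ)
    (hnum : ∀ i, Function.Injective (num i)) :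
    ∃ (A : Set (List Bool)) (F : (n i : ℕ) → MvPolynomial (Fin n) (K i)),
      IsExtension A F ∧ ∀ L, InNEXP (join A (extOracle num F)) L → InPUP A L := by
  obtain ⟨g, hg⟩ := exists_surjective_nat Mach
  obtain ⟨Y, κ, f, hlv, hcd, hacc, -⟩ := exists_sys num hnum g
  obtain ⟨σ, c, hc, hodd, hcode, huniq⟩ := exists_limit Y
  refine ⟨σ.A, σ.F, σ.ext, fun L hL => ⟨halves σ.A, inUP_halves _ huniq, ?_⟩⟩
  obtain ⟨μ, hμ⟩ := exists_mach hL
  obtain ⟨e, rfl⟩ := hg μ
  have hx : PT (fun w : List Bool => (unpair w).1) := PT_unpair.p1
  have hv : PT (fun w : List Bool => (unpair w).2) := PT_unpair.p2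
  refine ⟨fun z => cdM (fun e x => (x.length + κ e) ^ κ e) (e, z.1) z.2,
    fun z => z.2.reverse.headD false, ((Polynomial.X + Polynomial.C (κ e)) ^ κ e + 4) ^ 2,
    ?_, ?_, ?_⟩
  · refine PT.toTM2 (F := fun w => encPair (List.replicate
      (5 * ((unpair w).1.length + κ e) ^ κ e + 10) true,
      encPair (List.replicate e true, encPair ((unpair w).1, (unpair w).2)))) ?_ ?_
    · refine PT_encPair (PT.replicate ?_ (PT.const true)) (PT_encPair (PT.const _)
        (PT_encPair hx hv))
      exact PT.nadd (PT.nmul (PT.const 5) (PT_npow (PT.nadd (PT.length hx) (PT.const (κ e))) (κ e)))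
        (PT.const 10)
    · rintro ⟨x, v⟩
      rw [unpair_enc]
      rfl
  · refine PT.decider (F := fun w => (unpair w).2.reverse.headD false)
      (PT.headD (PT.reverse hv) (PT.const false)) ?_
    rintro ⟨x, v⟩
    rw [unpair_enc]
  · intro x
    have hD : Polynomial.eval x.length
        (((Polynomial.X + Polynomial.C (κ e)) ^ κ e + 4) ^ 2) = Y.D (f (e, x)) := by
      rw [Sys.D, hlv]
      simp
    dsimp only
    rw [hD, odd_vb, search (halves σ.A) _ x (Y.D (f (e, x))) (c (f (e, x))) (hc _), ← hodd, hacc,
      hμ x]
    · rfl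
    · intro u hu
      have h1 := hcode (f (e, x)) u hu
      rw [hcd] at h1
      exact h1

end Pool.Agent.MP_92db0f_lc_alg
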