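import Mathlib

/-!
Binary numbers, most significant bit first.
-/

set_option autoImplicit false

namespace Pool.Agent.MP_92db0f_lc_alg

/-- the number with binary digits `u`, most significant first -/
def vb (u : List Bool) : ℕ := u.foldl (fun a b => 2 * a + b.toNat) 0

@[simp] lemma vb_nil : vb [] = 0 := rfl

lemma vb_append (u : List Bool) (b : Bool) : vb (u ++ [b]) = 2 * vb u + b.toNat := by
  simp [vb]

lemma exists_vb : ∀ (j a : ℕ), a < 2 ^ j → ∃ u : List Bool, u.length = j ∧ vb u = a := by
  intro j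
  induction j with
  | zero =>
    intro a ha
    exact ⟨[], rfl, by rw [vb_nil]; omega⟩
  | succ j ih =>
    intro a ha
    obtain ⟨u, hu, hv⟩ := ih (a / 2) (by rw [pow_succ] at ha; omega)
    refine ⟨u ++ [decide (a % 2 = 1)], by simp [hu], ?_⟩
    rw [vb_append, hv]
    rcases Nat.mod_two_eq_zero_or_one a with h | h
    · rw [h]
      have h2 : (decide ((0 : ℕ) = 1)).toNat = 0 := rfl
      omega
    · rw [h]
      have h2 : (decide ((1 : ℕ) = 1)).toNat = 1 := rfl
      omega

lemma vb_inj : ∀ (j : ℕ) (u v : List Bool), u.length = j → v.length = j → vb u = vb v → u = v := by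
  intro j
  induction j with
  | zero =>
    intro u v hu hv _
    rw [List.length_eq_zero_iff] at hu hv
    rw [hu, hv]
  | succ j ih =>
    intro u v hu hv h
    obtain ⟨u', b, rfl⟩ : ∃ u' b, u = u' ++ [b] :=
      ⟨u.dropLast, u.getLast (by rintro rfl; simp at hu), (List.dropLast_append_getLast _).symm⟩
    obtain ⟨v', d, rfl⟩ : ∃ v' d, v = v' ++ [d] :=
      ⟨v.dropLast, v.getLast (by rintro rfl; simp at hv), (List.dropLast_append_getLast _).symm⟩
    rw [vb_append, vb_append] at h
    simp only [List.length_append, List.length_singleton] at hu hv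
    have hb : b.toNat < 2 := Bool.toNat_lt b
    have hd : d.toNat < 2 := Bool.toNat_lt d
    have h1 : vb u' = vb v' := by omega
    have h2 : b.toNat = d.toNat := by omega
    have h3 : b = d := by
      cases b <;> cases d <;> first | rfl | (exfalso; revert h2; decide)
    rw [ih u' v' (by omega) (by omega) h1, h3]

/-- the number `u 1 0 ... 0` with `D` binary digits -/
def nn (D : ℕ) (u : List Bool) : ℕ := (2 * vb u + 1) * 2 ^ (D - u.length - 1)

lemma nn_pos (D : ℕ) (u : List Bool) : 0 < nn D u := by unfold nn; positivity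

lemma exists_nn {D t : ℕ} (ht : 0 < t) (htD : t < 2 ^ D) :
    ∃ u : List Bool, u.length < D ∧ nn D u = t := by
  obtain ⟨k, m, ⟨a, rfl⟩, rfl⟩ := Nat.exists_eq_two_pow_mul_odd ht.ne'
  have hk : k < D := by
    by_contra h
    have h1 : 2 ^ D ≤ 2 ^ k := Nat.pow_le_pow_right (by norm_num) (by omega)
    have h2 : 2 ^ k ≤ 2 ^ k * (2 * a + 1) := Nat.le_mul_of_pos_right _ (by omega)
    omega
  have ha : a < 2 ^ (D - 1 - k) := by
    by_contra h
    push Not at h
    have h1 : 2 ^ D = 2 ^ k * (2 * 2 ^ (D - 1 - k)) := by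
      rw [← pow_succ', ← pow_add]
      congr 1
      omega
    have h2 : 2 ^ k * (2 * 2 ^ (D - 1 - k)) ≤ 2 ^ k * (2 * a + 1) :=
      Nat.mul_le_mul_left _ (by omega)
    omega
  obtain ⟨u, hu, hv⟩ := exists_vb _ _ ha
  refine ⟨u, by omega, ?_⟩
  unfold nn
  rw [hv, hu, mul_comm]
  congr 2
  omega

lemma nn_inj {D : ℕ} {u v : List Bool} (hu : u.length < D) (hv : v.length < D)
    (h : nn D u = nn D v) : u = v := by
  have key : ∀ (a b k l : ℕ), k ≤ l → (2 * a + 1) * 2 ^ k = (2 * b + 1) * 2 ^ l → k = l ∧ a = b := by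
    intro a b k l hkl h
    obtain ⟨d, rfl⟩ := Nat.exists_eq_add_of_le hkl
    rw [pow_add, ← mul_assoc, mul_right_comm] at h
    have h1 := Nat.eq_of_mul_eq_mul_right (by positivity : 0 < 2 ^ k) h
    cases d with
    | zero =>
      rw [pow_zero, mul_one] at h1
      exact ⟨rfl, by omega⟩
    | succ d =>
      rw [pow_succ, ← mul_assoc] at h1
      omega
  unfold nn at h
  rcases le_total (D - u.length - 1) (D - v.length - 1) with hl | hl
  · obtain ⟨h1, h2⟩ := key _ _ _ _ hl h
    exact vb_inj u.length u v rfl (by omega) h2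
  · obtain ⟨h1, h2⟩ := key _ _ _ _ hl h.symm
    exact vb_inj u.length u v rfl (by omega) h2.symm

lemma search_step {D c : ℕ} {u : List Bool} (hu : u.length < D)
    (h1 : vb u * 2 ^ (D - u.length) ≤ c) (h2 : c < (vb u + 1) * 2 ^ (D - u.length)) {b : Bool}
    (hb : b = true ↔ nn D u ≤ c) :
    vb (u ++ [b]) * 2 ^ (D - (u ++ [b]).length) ≤ c ∧
      c < (vb (u ++ [b]) + 1) * 2 ^ (D - (u ++ [b]).length) := by
  have hl : D - (u ++ [b]).length = D - u.length - 1 := by
    rw [List.length_append, List.length_singleton]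
    omega
  have hp : 2 ^ (D - u.length) = 2 * 2 ^ (D - u.length - 1) := by
    rw [← pow_succ']
    congr 1
    omega
  rw [hl, vb_append]
  rw [hp] at h1 h2
  unfold nn at hb
  set p := 2 ^ (D - u.length - 1)
  have e1 : vb u * (2 * p) = 2 * (vb u * p) := by ring
  have e2 : (vb u + 1) * (2 * p) = 2 * (vb u * p) + 2 * p := by ring
  have e3 : (2 * vb u + 1) * p = 2 * (vb u * p) + p := by ring
  cases b with
  | true =>
    have h3 := hb.1 rfl
    have e4 : (2 * vb u + true.toNat) * p = 2 * (vb u * p) + p := by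
      rw [show true.toNat = 1 from rfl]; ring
    have e5 : (2 * vb u + true.toNat + 1) * p = 2 * (vb u * p) + 2 * p := by
      rw [show true.toNat = 1 from rfl]; ring
    rw [e4, e5]
    omega
  | false =>
    have h3 : ¬ (2 * vb u + 1) * p ≤ c := fun h => by
      have := hb.2 h
      exact absurd this (by decide)
    have e4 : (2 * vb u + false.toNat) * p = 2 * (vb u * p) := by
      rw [show false.toNat = 0 from rfl]; ring
    have e5 : (2 * vb u + false.toNat + 1) * p = 2 * (vb u * p) + p := by
      rw [show false.toNat = 0 from rfl]; ring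
    rw [e4, e5]
    omega

end Pool.Agent.MP_92db0f_lc_alg
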