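import Pool.Agent.MP_92db0f_lc_alg.Poly
import Pool.Agent.MP_92db0f_lc_alg.Bin

/-!
Oracles with an extension, and the addition of one string.
-/

set_option autoImplicit false

namespace Pool.Agent.MP_92db0f_lc_alg

open MvPolynomial

/-- an oracle with an extension -/
structure St (K : ℕ → Type) [∀ i, Field (K i)] where
  A : Set (List Bool)
  F : (n i : ℕ) → MvPolynomial (Fin n) (K i)
  ext : IsExtension A F

variable {K : ℕ → Type} [∀ i, Field (K i)]

/-- the value at a sample point -/
noncomputable def St.val (σ : St K) (p : Pt K) : K p.2.1 := eval p.2.2 (σ.F p.1 p.2.1)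

/-- the same values at the points of `S` -/
def Agree (σ τ : St K) (S : Finset (Pt K)) : Prop := ∀ p ∈ S, σ.val p = τ.val p

lemma Agree.refl (σ : St K) (S : Finset (Pt K)) : Agree σ σ S := fun _ _ => rfl

lemma Agree.trans {σ τ ρ : St K} {S : Finset (Pt K)} (h : Agree σ τ S) (h' : Agree τ ρ S) :
    Agree σ ρ S := fun p hp => (h p hp).trans (h' p hp)

lemma Agree.symm {σ τ : St K} {S : Finset (Pt K)} (h : Agree σ τ S) : Agree τ σ S :=
  fun p hp => (h p hp).symm

lemma Agree.mono {σ τ : St K} {S T : Finset (Pt K)} (h : Agree σ τ T) (hST : S ⊆ T) :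
    Agree σ τ S := fun p hp => h p (hST hp)

/-- membership of a string is a value at a sample point -/
lemma St.mem_iff (σ : St K) {n : ℕ} (x : Fin n → Bool) :
    List.ofFn x ∈ σ.A ↔ σ.val ⟨n, 0, bpt (K 0) x⟩ = 1 := by
  have h := σ.ext.value n 0 x
  change eval (bpt (K 0) x) (σ.F n 0) = _ at h
  unfold St.val
  dsimp only
  rw [h]
  split_ifs with h1
  · simp [h1]
  · simp [h1]

/-- the empty oracle -/
noncomputable def St.empty (K : ℕ → Type) [∀ i, Field (K i)] : St K where
  A := ∅
  F := fun _ _ => 0
  ext :=
    { degree := fun n i j => by rw [degreeOf_zero]; omega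
      value := fun n i x => by simp }

/-- One string out of a large set of strings of the same length can be added without changing the
values at given points. -/
lemma St.add (σ : St K) (S : Finset (Pt K)) (Z : Finset (List Bool)) (N : ℕ)
    (hZ : ∀ w ∈ Z, w.length = N ∧ w ∉ σ.A) (hc : S.card < Z.card) :
    ∃ w ∈ Z, ∃ τ : St K, τ.A = insert w σ.A ∧ Agree σ τ S ∧ ∀ n, n ≠ N → τ.F n = σ.F n := by
  classical
  let Z' : Finset (Fin N → Bool) := Finset.univ.filter fun x => List.ofFn x ∈ Z
  have hsub : Z ⊆ Z'.image List.ofFn := by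
    intro w hw
    obtain ⟨hN, _⟩ := hZ w hw
    subst hN
    rw [Finset.mem_image]
    refine ⟨fun j => w.get j, ?_, List.ofFn_get w⟩
    rw [Finset.mem_filter]
    exact ⟨Finset.mem_univ _, by rw [List.ofFn_get]; exact hw⟩
  have hcard : S.card < Z'.card :=
    lt_of_lt_of_le hc ((Finset.card_le_card hsub).trans Finset.card_image_le)
  obtain ⟨z, hz, hg⟩ := exists_good S N Z' hcard
  choose g hg1 hg2 hg3 using hg
  have hzZ : List.ofFn z ∈ Z := (Finset.mem_filter.1 hz).2
  have hzA : List.ofFn z ∉ σ.A := (hZ _ hzZ).2
  let G : (n i : ℕ) → MvPolynomial (Fin n) (K i) := fun n i => if h : n = N then h ▸ g i else 0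
  have hGN : ∀ i, G N i = g i := fun i => by simp [G]
  have hG0 : ∀ n i, n ≠ N → G n i = 0 := fun n i h => by simp [G, h]
  have hF : IsExtension (insert (List.ofFn z) σ.A) (fun n i => σ.F n i + G n i) := by
    refine ⟨fun n i j => ?_, fun n i x => ?_⟩
    · refine (degreeOf_add_le _ _ _).trans (max_le (σ.ext.degree n i j) ?_)
      by_cases h : n = N
      · subst h
        rw [hGN]
        exact hg1 i j
      · rw [hG0 n i h, degreeOf_zero]
        omega
    · rw [map_add, σ.ext.value n i x]
      by_cases h : n = N
      · subst h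
        rw [hGN]
        have h3 := hg3 i x
        change eval (fun j => if x j then 1 else 0) (g i) = _ at h3
        rw [h3]
        by_cases hx : x = z
        · rw [if_pos hx, hx, if_neg hzA, if_pos (Set.mem_insert _ _), zero_add]
        · rw [if_neg hx, add_zero]
          have h4 : List.ofFn x ∈ insert (List.ofFn z) σ.A ↔ List.ofFn x ∈ σ.A := by
            rw [Set.mem_insert_iff]
            constructor
            · rintro (h5 | h5)
              · exact absurd (List.ofFn_injective h5) hx
              · exact h5
            · exact Or.inr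
          simp only [h4]
      · rw [hG0 n i h, map_zero, add_zero]
        have h4 : List.ofFn x ∈ insert (List.ofFn z) σ.A ↔ List.ofFn x ∈ σ.A := by
          rw [Set.mem_insert_iff]
          constructor
          · rintro (h5 | h5)
            · exfalso
              apply h
              have := congrArg List.length h5
              simpa using this
            · exact h5
          · exact Or.inr
        simp only [h4]
  refine ⟨List.ofFn z, hzZ, ⟨_, _, hF⟩, rfl, ?_, ?_⟩
  · rintro ⟨n, i, y⟩ hp
    change eval y (σ.F n i) = eval y (σ.F n i + G n i)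
    rw [map_add]
    by_cases h : n = N
    · subst h
      rw [hGN, hg2 i y hp, add_zero]
    · rw [hG0 n i h, map_zero, add_zero]
  · intro n hn
    funext i
    change σ.F n i + G n i = σ.F n i
    rw [hG0 n i hn, add_zero]

end Pool.Agent.MP_92db0f_lc_alg
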