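import Pool.Agent.MP_92db0f_lc_alg.Limit
import Pool.Agent.MP_92db0f_lc.Enum

/-!
The nondeterministic exponential-time machines with access to the oracle and its extension, as a
system of requirements.
-/

set_option autoImplicit false

namespace Pool.Agent.MP_92db0f_lc_alg

open Turing Computability Lib.helper60 MP_92db0f_lc

/-! ### codes -/

lemma encPair_inj {p p' : List Bool × List Bool} (h : encPair p = encPair p') : p = p' := by
  rw [← unpair_enc p, h, unpair_enc]

lemma encodeNat_inj {a b : ℕ} (h : encodeNat a = encodeNat b) : a = b := by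
  rw [← decode_encodeNat a, h, decode_encodeNat]

lemma encList_inj : ∀ {l l' : List (List Bool)}, encList l = encList l' → l = l'
  | [], [], _ => rfl
  | [], w :: l', h => by
    exfalso
    have := congrArg List.length h
    rw [encList, encList, length_encPair] at this
    simp only [List.length_nil] at this
    omega
  | w :: l, [], h => by
    exfalso
    have := congrArg List.length h
    rw [encList, encList, length_encPair] at this
    simp only [List.length_nil] at this
    omega
  | w :: l, w' :: l', h => by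
    rw [encList, encList] at h
    have h1 := encPair_inj h
    rw [Prod.mk.injEq] at h1
    rw [h1.1, encList_inj h1.2]

section oracle

variable {K : ℕ → Type} [∀ i, Field (K i)] (num : (i : ℕ) → K i → ℕ)

lemma query_inj (hnum : ∀ i, Function.Injective (num i)) {n n' i i' : ℕ} {y : Fin n → K i}
    {y' : Fin n' → K i'} {b b' : ℕ}
    (h : query num i (List.ofFn y) b = query num i' (List.ofFn y') b') :
    (⟨n, i, y⟩ : Pt K) = ⟨n', i', y'⟩ ∧ b = b' := by
  unfold query at h
  have h1 := encPair_inj h
  rw [Prod.mk.injEq] at h1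
  obtain ⟨h2, h3⟩ := h1
  have h4 := encPair_inj h3
  rw [Prod.mk.injEq] at h4
  obtain ⟨h5, h6⟩ := h4
  have hi := encodeNat_inj h2
  subst hi
  refine ⟨?_, encodeNat_inj h5⟩
  have h7 := encList_inj h6
  have h8 : List.ofFn y = List.ofFn y' := by
    refine List.map_injective_iff.2 ?_ h7
    intro s t hst
    exact hnum i (encodeNat_inj hst)
  have hn : n = n' := by
    have := congrArg List.length h8
    simpa using this
  subst hn
  rw [List.ofFn_injective h8]

/-- the oracle together with its extension -/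
def orc (σ : St K) : Set (List Bool) := join σ.A (extOracle num σ.F)

/-- the answer to a query depends on one sample point -/
lemma exists_pts (hnum : ∀ i, Function.Injective (num i)) (w : List Bool) :
    ∃ S : Finset (Pt K), S.card ≤ 1 ∧ ∀ σ τ : St K, Agree σ τ S →
      (w ∈ orc num σ ↔ w ∈ orc num τ) := by
  classical
  rcases w with _ | ⟨b, u⟩
  · refine ⟨∅, by simp, fun σ τ _ => ?_⟩
    constructor
    · rintro (⟨u, h, _⟩ | ⟨u, h, _⟩) <;> exact absurd h (by simp)
    · rintro (⟨u, h, _⟩ | ⟨u, h, _⟩) <;> exact absurd h (by simp)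
  · cases b with
    | false =>
      have key : ∀ σ : St K, (false :: u ∈ orc num σ ↔ σ.val ⟨u.length, 0, bpt (K 0) u.get⟩ = 1) := by
        intro σ
        rw [← σ.mem_iff, List.ofFn_get]
        constructor
        · rintro (⟨v, h, hv⟩ | ⟨v, h, _⟩)
          · rw [List.cons.injEq] at h
            rw [h.2]
            exact hv
          · exact absurd h (by simp)
        · intro h
          exact Or.inl ⟨u, rfl, h⟩
      refine ⟨{⟨u.length, 0, bpt (K 0) u.get⟩}, by simp, fun σ τ h => ?_⟩
      rw [key, key, h _ (Finset.mem_singleton_self _)]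
    | true =>
      have key : ∀ σ : St K, (true :: u ∈ orc num σ ↔ u ∈ extOracle num σ.F) := by
        intro σ
        constructor
        · rintro (⟨v, h, _⟩ | ⟨v, h, hv⟩)
          · exact absurd h (by simp)
          · rw [List.cons.injEq] at h
            rw [h.2]
            exact hv
        · intro h
          exact Or.inr ⟨u, rfl, h⟩
      by_cases hu : ∃ (n i : ℕ) (y : Fin n → K i) (b : ℕ), u = query num i (List.ofFn y) b
      · obtain ⟨n, i, y, b, hu⟩ := hu
        have key2 : ∀ σ : St K, (u ∈ extOracle num σ.F ↔ (num i (σ.val ⟨n, i, y⟩)).testBit b = true) := by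
          intro σ
          constructor
          · rintro ⟨n', i', y', b', hu', ht⟩
            obtain ⟨h1, h2⟩ := query_inj num hnum (hu.symm.trans hu')
            have h3 : (num i' (σ.val ⟨n', i', y'⟩)).testBit b' = true := ht
            rw [h2]
            have h4 : ∀ p p' : Pt K, p = p' → (num p'.2.1 (σ.val p')).testBit b' = true →
                (num p.2.1 (σ.val p)).testBit b' = true := by
              rintro p p' rfl h
              exact h
            exact h4 ⟨n, i, y⟩ ⟨n', i', y'⟩ h1 h3
          · intro ht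
            exact ⟨n, i, y, b, hu, ht⟩
        refine ⟨{⟨n, i, y⟩}, by simp, fun σ τ h => ?_⟩
        have h5 := h _ (Finset.mem_singleton_self _)
        rw [key, key, key2, key2, h5]
      · refine ⟨∅, by simp, fun σ τ _ => ?_⟩
        rw [key, key]
        constructor
        · rintro ⟨n, i, y, b, h, _⟩
          exact absurd ⟨n, i, y, b, h⟩ hu
        · rintro ⟨n, i, y, b, h, _⟩
          exact absurd ⟨n, i, y, b, h⟩ hu

/-- the answers to `N` queries depend on `N` sample points -/
lemma answers_pts (hnum : ∀ i, Function.Injective (num i)) {α : Type}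
    (q : α × List Bool → List Bool) (a : α) (σ : St K) (N : ℕ) :
    ∃ S : Finset (Pt K), S.card ≤ N ∧ ∀ τ : St K, Agree σ τ S → ∀ i ≤ N,
      answers (orc num σ) q a i = answers (orc num τ) q a i := by
  classical
  induction N with
  | zero =>
    refine ⟨∅, by simp, fun τ _ i hi => ?_⟩
    rw [Nat.le_zero.1 hi]
    rfl
  | succ N ih =>
    obtain ⟨S, hS, h⟩ := ih
    obtain ⟨S', hS', h'⟩ := exists_pts num hnum (q (a, answers (orc num σ) q a N))
    refine ⟨S ∪ S', (Finset.card_union_le _ _).trans (by omega), fun τ hτ i hi => ?_⟩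
    rcases Nat.lt_or_ge i (N + 1) with hlt | hge
    · exact h τ (hτ.mono Finset.subset_union_left) i (by omega)
    · have hi' : i = N + 1 := le_antisymm hi hge
      subst hi'
      have h1 := h τ (hτ.mono Finset.subset_union_left) N le_rfl
      have h2 := h' σ τ (hτ.mono Finset.subset_union_right)
      rw [answers, answers, ← h1]
      congr 2
      exact propext h2 ▸ rfl

end oracle

/-! ### machines -/

/-- a machine: tables and running times for the queries and for the decision, the number of the
queries, and the exponent of the length of the certificates -/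
abbrev Mach : Type := (CNF × Polynomial ℕ) × (CNF × Polynomial ℕ) × Polynomial ℕ × ℕ

/-- the function that computes the next query -/
def Mach.q (μ : Mach) (z : List Bool × List Bool) : List Bool := strFun μ.1.1 μ.1.2 (encPair z)

/-- the function that computes the decision -/
def Mach.d (μ : Mach) (z : List Bool × List Bool) : Bool :=
  (strFun μ.2.1.1 μ.2.1.2 (encPair z)).headD false

/-- the machine accepts `x` with the certificate `y` -/
def Mach.Acc1 (μ : Mach) (O : Set (List Bool)) (x y : List Bool) : Prop :=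
  μ.d (encPair (x, y), answers O μ.q (encPair (x, y)) (μ.2.2.1.eval (encPair (x, y)).length)) = true

/-- the machine accepts `x` -/
def Mach.Acc (μ : Mach) (O : Set (List Bool)) (x : List Bool) : Prop :=
  ∃ y : List Bool, y.length ≤ 2 ^ (x.length ^ μ.2.2.2 + μ.2.2.2) ∧ μ.Acc1 O x y

lemma answers_congr {α β : Type} (O : Set (List Bool)) (q : α × List Bool → List Bool)
    (q' : β × List Bool → List Bool) (a : α) (b : β) (h : ∀ v, q (a, v) = q' (b, v)) (i : ℕ) :
    answers O q a i = answers O q' b i := by
  induction i with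
  | zero => rfl
  | succ i ih => rw [answers, answers, ih, h]

/-- every language in NEXP is accepted by a machine -/
lemma exists_mach {O L : Set (List Bool)} (h : InNEXP O L) : ∃ μ : Mach, ∀ x, x ∈ L ↔ μ.Acc O x := by
  obtain ⟨k, R, ⟨q, d, P, ⟨hq⟩, ⟨hd⟩, hR⟩, hL⟩ := h
  obtain ⟨φ, T, hs⟩ := exists_table hq
  obtain ⟨φ', T', hs'⟩ := exists_table hd
  refine ⟨((φ, T), (φ', T'), P, k), fun x => ?_⟩
  rw [hL x]
  refine exists_congr fun y => and_congr_right fun _ => ?_
  rw [hR (x, y)]
  unfold Mach.Acc1
  have h1 : ∀ v, q ((x, y), v) = Mach.q ((φ, T), (φ', T'), P, k) (encPair (x, y), v) := by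
    intro v
    exact (hs.strFun ((x, y), v)).symm
  have h2 : ∀ v, d ((x, y), v) = Mach.d ((φ, T), (φ', T'), P, k) (encPair (x, y), v) := by
    intro v
    have h3 := hs'.strFun ((x, y), v)
    unfold Mach.d
    dsimp only at h3 ⊢
    rw [h3]
    rfl
  rw [h2, answers_congr O q _ (x, y) (encPair (x, y)) h1]

instance : Countable (Polynomial ℕ) := by
  have h : Function.Injective (fun p : Polynomial ℕ => (List.range (p.natDegree + 1)).map p.coeff) := by
    intro p p' h
    have h1 : p.natDegree = p'.natDegree := by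
      have := congrArg List.length h
      simpa using this
    ext n
    by_cases hn : n ≤ p.natDegree
    · have h2 := congrArg (fun l : List ℕ => l[n]?) h
      simp only [List.getElem?_map, ← h1] at h2
      rw [List.getElem?_range (by omega)] at h2
      simpa using h2
    · rw [Polynomial.coeff_eq_zero_of_natDegree_lt (by omega),
        Polynomial.coeff_eq_zero_of_natDegree_lt (by omega)]
  exact h.countable

instance : Countable Mach := inferInstance

/-! ### levels -/

lemma alg_eval_mul_le (P : Polynomial ℕ) (a b : ℕ) (hb : 1 ≤ b) :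
    P.eval (a * b) ≤ P.eval a * b ^ P.natDegree := by
  rw [Polynomial.eval_eq_sum_range, Polynomial.eval_eq_sum_range, Finset.sum_mul]
  apply Finset.sum_le_sum
  intro i hi
  rw [Finset.mem_range] at hi
  rw [mul_pow, mul_assoc]
  apply Nat.mul_le_mul_left
  apply Nat.mul_le_mul_left
  exact Nat.pow_le_pow_right hb (by omega)

/-- the level bounds the logarithm of the number of queries -/
lemma exists_level (μ : Mach) (e : ℕ) : ∃ κ, e + 1 ≤ κ ∧ ∀ n : ℕ,
    μ.2.2.1.eval (2 * n + 2 + 2 ^ (n ^ μ.2.2.2 + μ.2.2.2)) ≤ 2 ^ ((n + κ) ^ κ) := by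
  obtain ⟨⟨φ, T⟩, ⟨φ', T'⟩, P, k⟩ := μ
  dsimp only
  set a := P.eval 1 with ha
  set g := P.natDegree with hg
  refine ⟨e + k + a + g + 10, by omega, fun n => ?_⟩
  set κ := e + k + a + g + 10 with hκ
  have h1 : 2 * n + 2 + 2 ^ (n ^ k + k) ≤ 2 ^ (2 * n + 2 + (n ^ k + k)) := by
    have h2 : 2 * n + 2 + 1 ≤ 2 ^ (2 * n + 2) := Nat.lt_two_pow_self
    have h3 : 1 ≤ 2 ^ (n ^ k + k) := Nat.one_le_two_pow
    rw [pow_add 2 (2 * n + 2)]
    nlinarith
  have h2 : P.eval (2 * n + 2 + 2 ^ (n ^ k + k)) ≤ a * (2 ^ (2 * n + 2 + (n ^ k + k))) ^ g := by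
    refine (evalMono P h1).trans ?_
    have h3 := alg_eval_mul_le P 1 (2 ^ (2 * n + 2 + (n ^ k + k))) Nat.one_le_two_pow
    rwa [one_mul] at h3
  refine h2.trans ?_
  have h3 : a ≤ 2 ^ a := Nat.lt_two_pow_self.le
  rw [← pow_mul]
  refine (Nat.mul_le_mul_right _ h3).trans ?_
  rw [← pow_add]
  apply Nat.pow_le_pow_right (by norm_num)
  -- `a + (2n + 2 + n^k + k) g ≤ (n + κ)^κ`
  set b := n + κ with hb
  have hb1 : 1 ≤ b := by omega
  have e1 : n ^ k ≤ b ^ k := Nat.pow_le_pow_left (by omega) k
  have e2 : b ^ k ≤ b ^ (k + 1) := Nat.pow_le_pow_right hb1 (by omega)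
  have e3 : b ≤ b ^ (k + 1) := Nat.le_self_pow (by omega) b
  have e4 : 2 * n + 2 + (n ^ k + k) ≤ 4 * b ^ (k + 1) := by
    have : 2 * n + 2 + k ≤ 2 * b := by omega
    omega
  have e5 : a + (2 * n + 2 + (n ^ k + k)) * g ≤ 4 * b ^ (k + 1) * b := by
    have h6 : a ≤ 4 * b ^ (k + 1) * a := Nat.le_mul_of_pos_left _ (by positivity)
    have h7 : (2 * n + 2 + (n ^ k + k)) * g ≤ 4 * b ^ (k + 1) * g := Nat.mul_le_mul_right _ e4
    have h8 : 4 * b ^ (k + 1) * (a + g) ≤ 4 * b ^ (k + 1) * b := Nat.mul_le_mul_left _ (by omega)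
    rw [mul_add] at h8
    omega
  refine e5.trans ?_
  have e6 : 4 * b ^ (k + 1) * b ≤ b ^ (k + 1) * b * b := by
    have : 4 ≤ b := by omega
    nlinarith [Nat.mul_le_mul_left (b ^ (k + 1) * b) this]
  refine e6.trans ?_
  rw [← pow_succ, ← pow_succ]
  exact Nat.pow_le_pow_right hb1 (by omega)

/-- the strings of length at most `m` -/
lemma exists_short (m : ℕ) : ∃ Z : Finset (List Bool), Z.card ≤ 2 ^ (m + 1) ∧
    ∀ s : List Bool, s.length ≤ m → s ∈ Z := by
  classical
  have h : ∀ n, ∃ Z : Finset (List Bool), Z.card ≤ 2 ^ n ∧ ∀ s : List Bool, s.length = n → s ∈ Z := by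
    intro n
    refine ⟨(Finset.univ : Finset (Fin n → Bool)).image List.ofFn, ?_, ?_⟩
    · refine Finset.card_image_le.trans ?_
      simp
    · intro s hs
      subst hs
      exact Finset.mem_image.2 ⟨s.get, Finset.mem_univ _, List.ofFn_get s⟩
  choose Z hZ hZ' using h
  refine ⟨(Finset.range (m + 1)).biUnion Z, ?_, ?_⟩
  · refine Finset.card_biUnion_le.trans ((Finset.sum_le_sum fun i _ => hZ i).trans ?_)
    have h1 : ∀ m, ∑ i ∈ Finset.range m, 2 ^ i < 2 ^ m := by
      intro m
      induction m with
      | zero => simp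
      | succ m ih =>
        rw [Finset.sum_range_succ, pow_succ]
        omega
    exact (h1 (m + 1)).le
  · intro s hs
    exact Finset.mem_biUnion.2 ⟨s.length, Finset.mem_range.2 (by omega), hZ' _ s rfl⟩

/-- the code of the block `u` of the requirement `(e, x)` -/
def cdM (lv : ℕ → List Bool → ℕ) (r : ℕ × List Bool) (u : List Bool) : List Bool :=
  encPair (List.replicate (5 * lv r.1 r.2 + 10) true,
    encPair (List.replicate r.1 true, encPair (r.2, u)))

/-- **The system of requirements.** -/
theorem exists_sys {K : ℕ → Type} [∀ i, Field (K i)] (num : (i : ℕ) → K i → ℕ)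
    (hnum : ∀ i, Function.Injective (num i)) (g : ℕ → Mach) :
    ∃ (Y : Sys K) (κ : ℕ → ℕ) (f : ℕ × List Bool → Y.Req),
      (∀ r, Y.lv (f r) = (r.2.length + κ r.1) ^ κ r.1) ∧
      (∀ r, Y.cd (f r) = cdM (fun e x => (x.length + κ e) ^ κ e) r) ∧
      (∀ σ r, Y.acc σ (f r) ↔ (g r.1).Acc (orc num σ) r.2) ∧
      (∀ r, ∃ r', f r' = r) := by
  classical
  have hκ := fun e => exists_level (g e) e
  choose κ hκ1 hκ2 using hκ
  let lv : ℕ → List Bool → ℕ := fun e x => (x.length + κ e) ^ κ e
  have hlv : ∀ e x, e ≤ lv e x ∧ x.length ≤ lv e x := by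
    intro e x
    have h1 := hκ1 e
    have h2 : x.length + κ e ≤ (x.length + κ e) ^ κ e := Nat.le_self_pow (by omega) _
    change e ≤ (x.length + κ e) ^ κ e ∧ x.length ≤ (x.length + κ e) ^ κ e
    omega
  choose Z hZ hZ' using exists_short
  refine ⟨{ Req := ℕ × List Bool
            lv := fun r => lv r.1 r.2
            Rq := fun m => ((Finset.range (m + 1)) ×ˢ Z m).filter fun r => lv r.1 r.2 = m
            mem_Rq := ?_
            card_Rq := ?_
            cd := cdM lv
            cd_inj := ?_
            cd_len := ?_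
            acc := fun σ r => (g r.1).Acc (orc num σ) r.2
            use := ?_ }, κ, id, fun r => rfl, fun r => rfl, fun σ r => Iff.rfl, fun r => ⟨r, rfl⟩⟩
  · rintro m ⟨e, x⟩
    rw [Finset.mem_filter, Finset.mem_product, Finset.mem_range]
    constructor
    · exact fun h => h.2
    · intro h
      obtain ⟨h1, h2⟩ := hlv e x
      dsimp only at h ⊢
      rw [h] at h1 h2
      exact ⟨⟨by omega, hZ' m x h2⟩, h⟩
  · intro m
    refine (Finset.card_filter_le _ _).trans ?_
    rw [Finset.card_product, Finset.card_range]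
    have h1 : m + 1 ≤ 2 ^ (m + 1) := Nat.lt_two_pow_self.le
    calc (m + 1) * (Z m).card ≤ 2 ^ (m + 1) * 2 ^ (m + 1) := Nat.mul_le_mul h1 (hZ m)
      _ = 2 ^ (2 * m + 2) := by rw [← pow_add]; congr 1; ring
  · rintro ⟨e, x⟩ u ⟨e', x'⟩ u' h
    unfold cdM at h
    have h1 := encPair_inj h
    rw [Prod.mk.injEq] at h1
    have h2 := encPair_inj h1.2
    rw [Prod.mk.injEq] at h2
    have h3 := encPair_inj h2.2
    rw [Prod.mk.injEq] at h3
    have h4 : e = e' := by
      have := congrArg List.length h2.1
      simpa using this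
    exact ⟨Prod.ext h4 h3.1, h3.2⟩
  · rintro ⟨e, x⟩ u
    unfold cdM
    rw [length_encPair, List.length_replicate]
    dsimp only
    omega
  · rintro σ ⟨e, x⟩ ⟨y, hy, hacc⟩
    obtain ⟨S, hS, h⟩ := answers_pts num hnum (g e).q (encPair (x, y)) σ
      ((g e).2.2.1.eval (encPair (x, y)).length)
    refine ⟨S, hS.trans ?_, fun τ hτ => ⟨y, hy, ?_⟩⟩
    · refine le_trans (evalMono _ ?_) (hκ2 e x.length)
      rw [length_encPair]
      dsimp only at hy
      omega
    · unfold Mach.Acc1 at hacc ⊢
      rw [← h τ hτ _ le_rfl]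
      exact hacc

end Pool.Agent.MP_92db0f_lc_alg
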