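import Pool.Agent.MP_92db0f_lc_alg.State

/-!
Configurations: counters that are coded into the oracle.
-/

set_option autoImplicit false

namespace Pool.Agent.MP_92db0f_lc_alg

open MvPolynomial

/-- a system of requirements: the requirement `r` of level `lv r` is coded by the strings
`cd r u ++ s`; `acc σ r` says that the requirement is accepted relative to `σ`, and acceptance
depends on at most `2 ^ lv r` sample points -/
structure Sys (K : ℕ → Type) [∀ i, Field (K i)] where
  Req : Type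
  lv : Req → ℕ
  Rq : ℕ → Finset Req
  mem_Rq : ∀ m r, r ∈ Rq m ↔ lv r = m
  card_Rq : ∀ m, (Rq m).card ≤ 2 ^ (2 * m + 2)
  cd : Req → List Bool → List Bool
  cd_inj : ∀ r u r' u', cd r u = cd r' u' → r = r' ∧ u = u'
  cd_len : ∀ r u, 5 * lv r + 10 ≤ (cd r u).length
  acc : St K → Req → Prop
  use : ∀ σ r, acc σ r → ∃ S : Finset (Pt K), S.card ≤ 2 ^ lv r ∧ ∀ τ, Agree σ τ S → acc τ r

variable {K : ℕ → Type} [∀ i, Field (K i)] (Y : Sys K)

/-- the number of digits of the counter -/
def Sys.D (r : Y.Req) : ℕ := (Y.lv r + 4) ^ 2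

/-- counters coded into the oracle -/
structure Conf where
  c : Y.Req → ℕ
  σ : St K
  fin : {r | c r ≠ 0}.Finite
  mem : ∀ w ∈ σ.A, ∃ r u s, u.length < Y.D r ∧ w = Y.cd r u ++ s ∧
    s.length = (Y.cd r u).length ∧ nn (Y.D r) u ≤ c r
  ex : ∀ r u, u.length < Y.D r → nn (Y.D r) u ≤ c r →
    ∃ s, s.length = (Y.cd r u).length ∧ Y.cd r u ++ s ∈ σ.A
  uniq : ∀ z s s' : List Bool, s.length = z.length → s'.length = z.length → z ++ s ∈ σ.A →
    z ++ s' ∈ σ.A → s = s'

variable {Y}

lemma half {z z' s s' : List Bool} (hs : s.length = z.length) (hs' : s'.length = z'.length)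
    (h : z ++ s = z' ++ s') : z = z' ∧ s = s' := by
  apply List.append_inj h
  have := congrArg List.length h
  rw [List.length_append, List.length_append] at this
  omega

/-- the strings of length `n` -/
lemma exists_strings (n : ℕ) : ∃ Z : Finset (List Bool), Z.card = 2 ^ n ∧ ∀ s ∈ Z, s.length = n := by
  classical
  refine ⟨(Finset.univ : Finset (Fin n → Bool)).image List.ofFn, ?_, ?_⟩
  · rw [Finset.card_image_of_injective _ List.ofFn_injective, Finset.card_univ]
    simp
  · intro s hs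
    obtain ⟨x, _, rfl⟩ := Finset.mem_image.1 hs
    simp

open Classical in
/-- One counter is increased. -/
lemma Conf.bump (κ : Conf Y) (r : Y.Req) (hc : κ.c r + 1 < 2 ^ Y.D r) (S : Finset (Pt K))
    (hS : S.card < 2 ^ (5 * Y.lv r + 10)) :
    ∃ κ' : Conf Y, κ'.c = Function.update κ.c r (κ.c r + 1) ∧ Agree κ.σ κ'.σ S ∧
      (∀ n < 10 * Y.lv r + 20, κ'.σ.F n = κ.σ.F n) ∧
      ∀ w : List Bool, w.length < 10 * Y.lv r + 20 → (w ∈ κ'.σ.A ↔ w ∈ κ.σ.A) := by
  obtain ⟨u, hu, hn⟩ := exists_nn (Nat.succ_pos (κ.c r)) hc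
  have hn' : nn (Y.D r) u = κ.c r + 1 := hn
  set z := Y.cd r u with hz
  have hzl : 5 * Y.lv r + 10 ≤ z.length := Y.cd_len r u
  -- no string of the block is in the oracle
  have hblock : ∀ s : List Bool, s.length = z.length → z ++ s ∉ κ.σ.A := by
    intro s hs hmem
    obtain ⟨r', u', s', hu', he, hs', hle⟩ := κ.mem _ hmem
    obtain ⟨h1, h2⟩ := half hs hs' he
    obtain ⟨h3, h4⟩ := Y.cd_inj _ _ _ _ (hz.symm.trans h1)
    subst h3
    subst h4
    omega
  obtain ⟨T, hT, hTl⟩ := exists_strings z.length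
  have hZ : ∀ w ∈ T.image fun s => z ++ s, w.length = z.length + z.length ∧ w ∉ κ.σ.A := by
    intro w hw
    obtain ⟨s, hs, rfl⟩ := Finset.mem_image.1 hw
    exact ⟨by rw [List.length_append, hTl s hs], hblock s (hTl s hs)⟩
  have hcard : S.card < (T.image fun s => z ++ s).card := by
    rw [Finset.card_image_of_injective _ (fun a b h => List.append_cancel_left h), hT]
    exact lt_of_lt_of_le hS (Nat.pow_le_pow_right (by norm_num) hzl)
  obtain ⟨w, hw, τ, hτA, hτS, hτF⟩ := κ.σ.add S _ _ hZ hcard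
  obtain ⟨s₀, hs₀, rfl⟩ := Finset.mem_image.1 hw
  have hs₀l := hTl s₀ hs₀
  refine ⟨⟨Function.update κ.c r (κ.c r + 1), τ, ?_, ?_, ?_, ?_⟩, rfl, hτS, ?_, ?_⟩
  · refine (κ.fin.insert r).subset ?_
    intro r' hr'
    by_cases h : r' = r
    · exact Or.inl h
    · right
      simpa [Function.update_of_ne h] using hr'
  · intro w hw
    rw [hτA, Set.mem_insert_iff] at hw
    rcases hw with rfl | hw
    · refine ⟨r, u, s₀, hu, rfl, hs₀l, ?_⟩
      rw [Function.update_self]
      exact hn'.le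
    · obtain ⟨r', u', s', h1, h2, h3, h4⟩ := κ.mem w hw
      refine ⟨r', u', s', h1, h2, h3, h4.trans ?_⟩
      by_cases h : r' = r
      · subst h
        rw [Function.update_self]
        omega
      · rw [Function.update_of_ne h]
  · intro r' u' hu' hle
    by_cases h : r' = r
    · subst h
      rw [Function.update_self] at hle
      rcases Nat.lt_or_ge (κ.c r') (nn (Y.D r') u') with h1 | h1
      · have h2 : nn (Y.D r') u' = nn (Y.D r') u := by omega
        have h3 := nn_inj hu' hu h2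
        subst h3
        exact ⟨s₀, hs₀l, by rw [hτA]; exact Set.mem_insert _ _⟩
      · obtain ⟨s, hs, hm⟩ := κ.ex r' u' hu' h1
        exact ⟨s, hs, by rw [hτA]; exact Set.mem_insert_of_mem _ hm⟩
    · rw [Function.update_of_ne h] at hle
      obtain ⟨s, hs, hm⟩ := κ.ex r' u' hu' hle
      exact ⟨s, hs, by rw [hτA]; exact Set.mem_insert_of_mem _ hm⟩
  · intro z' s s' hs hs' h1 h2
    rw [hτA, Set.mem_insert_iff] at h1 h2
    rcases h1 with h1 | h1
    · obtain ⟨e1, e2⟩ := half hs hs₀l h1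
      rcases h2 with h2 | h2
      · exact e2.trans (half hs' hs₀l h2).2.symm
      · rw [e1] at h2 hs'
        exact absurd h2 (hblock s' hs')
    · rcases h2 with h2 | h2
      · obtain ⟨e1, e2⟩ := half hs' hs₀l h2
        rw [e1] at h1 hs
        exact absurd h1 (hblock s hs)
      · exact κ.uniq z' s s' hs hs' h1 h2
  · intro n hn2
    exact hτF n (by omega)
  · intro w hw2
    change w ∈ τ.A ↔ _
    rw [hτA, Set.mem_insert_iff]
    constructor
    · rintro (h | h)
      · exfalso
        rw [h, List.length_append, hs₀l] at hw2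
        omega
      · exact h
    · exact Or.inr

open Classical in
/-- Several counters of levels at least `m` are increased. -/
lemma Conf.bumps (m : ℕ) (S : Finset (Pt K)) (hS : S.card < 2 ^ (5 * m + 10)) (T : Finset Y.Req) :
    (∀ r ∈ T, m ≤ Y.lv r) → ∀ κ : Conf Y, (∀ r ∈ T, κ.c r + 1 < 2 ^ Y.D r) →
    ∃ κ' : Conf Y, (∀ r, κ'.c r = if r ∈ T then κ.c r + 1 else κ.c r) ∧ Agree κ.σ κ'.σ S ∧
      (∀ n < 10 * m + 20, κ'.σ.F n = κ.σ.F n) ∧
      ∀ w : List Bool, w.length < 10 * m + 20 → (w ∈ κ'.σ.A ↔ w ∈ κ.σ.A) := by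
  induction T using Finset.induction_on with
  | empty =>
    intro _ κ _
    exact ⟨κ, fun r => by simp, Agree.refl _ _, fun _ _ => rfl, fun _ _ => Iff.rfl⟩
  | insert r T hr ih =>
    intro hT κ hc
    obtain ⟨κ₁, h1, h2, h3, h4⟩ := ih (fun r' hr' => hT r' (Finset.mem_insert_of_mem hr')) κ
      (fun r' hr' => hc r' (Finset.mem_insert_of_mem hr'))
    have hm := hT r (Finset.mem_insert_self _ _)
    have hr1 : κ₁.c r = κ.c r := by rw [h1, if_neg hr]
    have hS' : S.card < 2 ^ (5 * Y.lv r + 10) :=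
      lt_of_lt_of_le hS (Nat.pow_le_pow_right (by norm_num) (by omega))
    obtain ⟨κ₂, g1, g2, g3, g4⟩ := κ₁.bump r
      (by rw [hr1]; exact hc r (Finset.mem_insert_self _ _)) S hS'
    refine ⟨κ₂, ?_, h2.trans g2, fun n hn => (g3 n (by omega)).trans (h3 n hn),
      fun w hw => (g4 w (by omega)).trans (h4 w hw)⟩
    intro r'
    rw [g1]
    by_cases h : r' = r
    · subst h
      rw [Function.update_self, if_pos (Finset.mem_insert_self _ _), hr1]
    · rw [Function.update_of_ne h, h1]
      simp only [Finset.mem_insert, h, false_or]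

end Pool.Agent.MP_92db0f_lc_alg
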