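import Pool.Agent.Lib.helper60.PNP

/-!
Oracle computations, the classes `NEXP` and `P^UP` relative to an oracle, and low-degree extensions
of oracles in the sense of Aaronson and Wigderson.
-/

set_option autoImplicit false

namespace Pool.Agent.MP_92db0f_lc_alg

open Turing Computability Lib.helper60

/-! ### oracle computations -/

open Classical in
/-- The answers of the oracle `O` to the first `i` queries of the computation on the input `a`,
where `q` computes the next query from the input and the answers so far. -/
noncomputable def answers {α : Type} (O : Set (List Bool)) (q : α × List Bool → List Bool)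
    (a : α) : ℕ → List Bool
  | 0 => []
  | i + 1 => answers O q a i ++ [decide (q (a, answers O q a i) ∈ O)]

/-- The predicate `R` is decided by a deterministic machine with the oracle `O` in time polynomial
in the length of the code `enc a` of the input `a`: the next query and the final decision are
computed by Turing machines in time polynomial in the length of the input and the answers so far,
and the number of queries is a polynomial in the length of the input. -/
def PolyTime {α : Type} (enc : α → List Bool) (O : Set (List Bool)) (R : α → Prop) : Prop :=
  ∃ (q : α × List Bool → List Bool) (d : α × List Bool → Bool) (P : Polynomial ℕ),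
    Nonempty (TM2ComputableInPolyTime (fun z : α × List Bool => encPair (enc z.1, z.2))
      (fun w => w) q) ∧
    Nonempty (TM2ComputableInPolyTime (fun z : α × List Bool => encPair (enc z.1, z.2))
      encodeBool d) ∧
    ∀ a, R a ↔ d (a, answers O q a (P.eval (enc a).length)) = true

/-- The class `P` relative to the oracle `O`. -/
def InP (O L : Set (List Bool)) : Prop := PolyTime (fun x => x) O (fun x => x ∈ L)

/-- The class `UP` relative to the oracle `O`: every input has at most one certificate. -/
def InUP (O L : Set (List Bool)) : Prop :=
  ∃ (R : List Bool × List Bool → Prop) (P : Polynomial ℕ), PolyTime encPair O R ∧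
    ∀ x, (x ∈ L ↔ ∃ y : List Bool, y.length ≤ P.eval x.length ∧ R (x, y)) ∧
      ∀ y y' : List Bool, y.length ≤ P.eval x.length → y'.length ≤ P.eval x.length →
        R (x, y) → R (x, y') → y = y'

/-- The class `P^UP` relative to the oracle `O`. -/
def InPUP (O L : Set (List Bool)) : Prop := ∃ B, InUP O B ∧ InP B L

/-- The class `NEXP` relative to the oracle `O`: membership of `x` is witnessed by certificates of
length at most `2 ^ (|x| ^ k + k)`, which a deterministic machine with the oracle `O` checks in time
polynomial in the length of `x` and the certificate. -/
def InNEXP (O L : Set (List Bool)) : Prop :=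
  ∃ (k : ℕ) (R : List Bool × List Bool → Prop), PolyTime encPair O R ∧
    ∀ x, x ∈ L ↔ ∃ y : List Bool, y.length ≤ 2 ^ (x.length ^ k + k) ∧ R (x, y)

/-- The join of two oracles: queries that begin with `0` are answered by `A` and queries that begin
with `1` are answered by `B`. -/
def join (A B : Set (List Bool)) : Set (List Bool) :=
  {w | (∃ u, w = false :: u ∧ u ∈ A) ∨ (∃ u, w = true :: u ∧ u ∈ B)}

/-! ### extension oracles -/

variable {K : ℕ → Type} [∀ i, Field (K i)]

open Classical in
/-- The polynomials `F n i` over the fields `K i` are a low-degree extension of the oracle `A`: the
polynomial `F n i` in `n` variables has degree at most 2 in each variable, and its value at each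
point of `{0,1}^n` is 1 or 0 according to whether this string belongs to `A` or not. -/
structure IsExtension (A : Set (List Bool)) (F : (n i : ℕ) → MvPolynomial (Fin n) (K i)) :
    Prop where
  degree : ∀ n i (j : Fin n), (F n i).degreeOf j ≤ 2
  value : ∀ n i (x : Fin n → Bool),
    MvPolynomial.eval (fun j => if x j then 1 else 0) (F n i) = if List.ofFn x ∈ A then 1 else 0

/-- The code of a list of bit strings. -/
def encList : List (List Bool) → List Bool
  | [] => []
  | w :: l => encPair (w, encList l)

/-- The code of the query for the bit with number `b` of the value at the point `y` over the field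
`K i`; the elements of `K i` are written in binary with the help of the numbering `num`. -/
def query (num : (i : ℕ) → K i → ℕ) (i : ℕ) (y : List (K i)) (b : ℕ) : List Bool :=
  encPair (encodeNat i, encPair (encodeNat b, encList (y.map fun t => encodeNat (num i t))))

/-- The polynomials `F n i` as an oracle: it gives the bits of the numbers of the values of the
polynomials at all points. -/
def extOracle (num : (i : ℕ) → K i → ℕ) (F : (n i : ℕ) → MvPolynomial (Fin n) (K i)) :
    Set (List Bool) :=
  {w | ∃ (n i : ℕ) (y : Fin n → K i) (b : ℕ), w = query num i (List.ofFn y) b ∧
    (num i (MvPolynomial.eval y (F n i))).testBit b = true}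

end Pool.Agent.MP_92db0f_lc_alg
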