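import Pool.Agent.MP_92db0f_lc_alg.Legal

/-!
The limit oracle, by an extremal principle.
-/

set_option autoImplicit false

namespace Pool.Agent.MP_92db0f_lc_alg

variable {K : ℕ → Type} [∀ i, Field (K i)] {Y : Sys K}

/-- `b` is obtained from `a` by steps -/
def Reach (a b : LC Y) : Prop := Relation.ReflTransGen (fun a b => ∃ m, StepAt m a b) a b

/-- no step at a level at most `m` is possible any more -/
def Stable (m : ℕ) (a : LC Y) : Prop := ∀ b, Reach a b → ∀ j ≤ m, ∀ d, ¬ StepAt j b d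

lemma Reach.mono {a b : LC Y} (h : Reach a b) (r : Y.Req) : a.κ.c r ≤ b.κ.c r := by
  induction h with
  | refl => exact le_rfl
  | tail _ hs ih =>
    obtain ⟨m, hs⟩ := hs
    exact ih.trans (hs.mono r)

lemma Stable.reach {m : ℕ} {a b : LC Y} (h : Stable m a) (hab : Reach a b) : Stable m b :=
  fun d hd => h d (hab.trans hd)

lemma Stable.mono {m j : ℕ} {a : LC Y} (h : Stable m a) (hj : j ≤ m) : Stable j a :=
  fun d hd i hi => h d hd i (hi.trans hj)

/-- what does not change any more -/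
lemma Stable.keep {m : ℕ} {a b : LC Y} (h : Stable m a) (hab : Reach a b) :
    (∀ r, Y.lv r ≤ m → b.κ.c r = a.κ.c r ∧
      (Odd (a.κ.c r) → b.Sf r = a.Sf r ∧ Agree a.κ.σ b.κ.σ (a.Sf r))) ∧
    (∀ n < 10 * m + 20, b.κ.σ.F n = a.κ.σ.F n) ∧
    ∀ w : List Bool, w.length < 10 * m + 20 → (w ∈ b.κ.σ.A ↔ w ∈ a.κ.σ.A) := by
  induction hab with
  | refl => exact ⟨fun r _ => ⟨rfl, fun _ => ⟨rfl, Agree.refl _ _⟩⟩, fun _ _ => rfl,
      fun _ _ => Iff.rfl⟩
  | @tail b d hab hs ih =>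
    obtain ⟨h1, h2, h3⟩ := ih
    obtain ⟨j, hs⟩ := hs
    have hj : m < j := by
      by_contra hle
      exact h b hab j (by omega) d hs
    refine ⟨fun r hr => ?_, fun n hn => (hs.F n (by omega)).trans (h2 n hn),
      fun w hw => (hs.A w (by omega)).trans (h3 w hw)⟩
    obtain ⟨h4, h5⟩ := h1 r hr
    refine ⟨(hs.below r (by omega)).trans h4, fun ho => ?_⟩
    obtain ⟨h6, h7⟩ := h5 ho
    obtain ⟨_, h8, h9⟩ := hs.keep r (by omega) (by rw [h4]; exact ho)
    rw [h6] at h8 h9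
    exact ⟨h8, h7.trans h9⟩

/-- maximal number of steps at the next level -/
lemma exists_stable (m : ℕ) (a : LC Y) (h : ∀ j < m, Stable j a) :
    ∃ b, Reach a b ∧ Stable m b := by
  classical
  let P : ℕ → Prop := fun t => ∃ b, Reach a b ∧ ∑ r ∈ Y.Rq m, b.κ.c r = t
  have hP : ∃ t, P t := ⟨_, a, Relation.ReflTransGen.refl, rfl⟩
  have hb : ∀ t, P t → t ≤ 2 ^ (2 * m + 2) * 2 ^ ((m + 4) ^ 2) := by
    rintro t ⟨b, _, rfl⟩
    have h1 : ∀ r ∈ Y.Rq m, b.κ.c r ≤ 2 ^ ((m + 4) ^ 2) := by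
      intro r hr
      have h2 := b.c_lt r
      unfold Sys.D at h2
      rw [(Y.mem_Rq m r).1 hr] at h2
      omega
    refine (Finset.sum_le_card_nsmul _ _ _ h1).trans ?_
    rw [smul_eq_mul]
    exact Nat.mul_le_mul_right _ (Y.card_Rq m)
  obtain ⟨b, hab, hbt⟩ : P (Nat.findGreatest P (2 ^ (2 * m + 2) * 2 ^ ((m + 4) ^ 2))) := by
    obtain ⟨t, ht⟩ := hP
    exact Nat.findGreatest_spec (hb t ht) ht
  refine ⟨b, hab, ?_⟩
  intro d hbd j hj e he
  rcases Nat.lt_or_ge j m with hlt | hge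
  · exact h j hlt d (hab.trans hbd) j le_rfl e he
  · have hjm : j = m := le_antisymm hj hge
    subst hjm
    have h1 : P (∑ r ∈ Y.Rq j, e.κ.c r) := ⟨e, (hab.trans hbd).tail ⟨j, he⟩, rfl⟩
    have h2 := Nat.le_findGreatest (hb _ h1) h1
    have h3 : ∑ r ∈ Y.Rq j, b.κ.c r ≤ ∑ r ∈ Y.Rq j, d.κ.c r :=
      Finset.sum_le_sum fun r _ => Reach.mono hbd r
    have h4 := he.inc
    omega

/-- the sequence of configurations -/
lemma exists_seq (Y : Sys K) : ∃ f : ℕ → LC Y, (∀ m, Stable m (f m)) ∧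
    ∀ m n, m ≤ n → Reach (f m) (f n) := by
  obtain ⟨a₀, -, h₀⟩ := exists_stable 0 (LC.init Y) (fun j hj => absurd hj (by omega))
  have hstep : ∀ (m : ℕ) (a : {a : LC Y // Stable m a}),
      ∃ b : {b : LC Y // Stable (m + 1) b}, Reach a.1 b.1 := by
    rintro m ⟨a, ha⟩
    obtain ⟨b, hb, hb'⟩ := exists_stable (m + 1) a (fun j hj => ha.mono (by omega))
    exact ⟨⟨b, hb'⟩, hb⟩
  choose g hg using hstep
  let f : (m : ℕ) → {a : LC Y // Stable m a} := fun m =>
    Nat.rec (motive := fun m => {a : LC Y // Stable m a}) ⟨a₀, h₀⟩ g m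
  refine ⟨fun m => (f m).1, fun m => (f m).2, ?_⟩
  intro m n hmn
  induction n, hmn using Nat.le_induction with
  | base => exact Relation.ReflTransGen.refl
  | succ n _ ih => exact ih.trans (hg n (f n))

/-- **The limit oracle.** -/
theorem exists_limit (Y : Sys K) : ∃ (σ : St K) (c : Y.Req → ℕ), (∀ r, c r < 2 ^ Y.D r) ∧
    (∀ r, Y.acc σ r ↔ Odd (c r)) ∧
    (∀ r u, u.length < Y.D r →
      ((∃ s, s.length = (Y.cd r u).length ∧ Y.cd r u ++ s ∈ σ.A) ↔ nn (Y.D r) u ≤ c r)) ∧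
    ∀ z s s' : List Bool, s.length = z.length → s'.length = z.length → z ++ s ∈ σ.A →
      z ++ s' ∈ σ.A → s = s' := by
  classical
  obtain ⟨f, hf, hr⟩ := exists_seq Y
  -- stability
  have hc : ∀ r M, Y.lv r ≤ M → (f M).κ.c r = (f (Y.lv r)).κ.c r := fun r M hM =>
    (((hf (Y.lv r)).keep (hr _ _ hM)).1 r le_rfl).1
  have hF : ∀ n M, n ≤ M → (f M).κ.σ.F n = (f n).κ.σ.F n := fun n M hM =>
    ((hf n).keep (hr _ _ hM)).2.1 n (by omega)
  have hA : ∀ (w : List Bool) M, w.length ≤ M → (w ∈ (f M).κ.σ.A ↔ w ∈ (f w.length).κ.σ.A) :=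
    fun w M hM => ((hf w.length).keep (hr _ _ hM)).2.2 w (by omega)
  let σ : St K :=
    { A := {w | w ∈ (f w.length).κ.σ.A}
      F := fun n => (f n).κ.σ.F n
      ext :=
        { degree := fun n i j => (f n).κ.σ.ext.degree n i j
          value := fun n i x => by
            rw [(f n).κ.σ.ext.value n i x]
            simp only [Set.mem_ofPred_eq, List.length_ofFn] } }
  have hval : ∀ (p : Pt K) M, p.1 ≤ M → σ.val p = (f M).κ.σ.val p := by
    intro p M hM
    change MvPolynomial.eval p.2.2 ((f p.1).κ.σ.F p.1 p.2.1) =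
      MvPolynomial.eval p.2.2 ((f M).κ.σ.F p.1 p.2.1)
    rw [hF p.1 M hM]
  refine ⟨σ, fun r => (f (Y.lv r)).κ.c r, ?_, ?_, ?_, ?_⟩
  · intro r
    have := (f (Y.lv r)).c_lt r
    dsimp only
    omega
  · intro r
    constructor
    · intro hacc
      by_contra ho
      dsimp only at ho
      obtain ⟨S, -, hS⟩ := Y.use σ r hacc
      let M := Y.lv r + S.sup fun p => p.1
      have hM : Agree σ (f M).κ.σ S := by
        intro p hp
        apply hval
        have := Finset.le_sup (f := fun p : Pt K => p.1) hp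
        omega
      have h1 := hS _ hM
      have h2 : ¬ Odd ((f M).κ.c r) := by
        rw [hc r M (by omega)]
        exact ho
      obtain ⟨b, hb⟩ := (f M).act r h2 h1
      exact hf M (f M) Relation.ReflTransGen.refl (Y.lv r) (by omega) b hb
    · intro ho
      dsimp only at ho
      have h1 := (f (Y.lv r)).cert r ho
      apply h1.2
      intro p hp
      let M := Y.lv r + p.1
      have h2 := (((hf (Y.lv r)).keep (hr (Y.lv r) M (by omega))).1 r le_rfl).2 ho
      rw [hval p M (by omega)]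
      exact h2.2 p hp
  · intro r u hu
    dsimp only
    have hlen := Y.cd_len r u
    constructor
    · rintro ⟨s, hs, hm⟩
      change Y.cd r u ++ s ∈ (f (Y.cd r u ++ s).length).κ.σ.A at hm
      obtain ⟨r', u', s', h1, h2, h3, h4⟩ := (f (Y.cd r u ++ s).length).κ.mem _ hm
      obtain ⟨e1, e2⟩ := half hs h3 h2
      obtain ⟨e3, e4⟩ := Y.cd_inj _ _ _ _ e1
      subst e3
      subst e4
      rw [hc r _ (by rw [List.length_append]; omega)] at h4
      exact h4
    · intro hle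
      let M := (Y.cd r u).length + (Y.cd r u).length
      rw [← hc r M (by omega)] at hle
      obtain ⟨s, hs, hm⟩ := (f M).κ.ex r u hu hle
      refine ⟨s, hs, ?_⟩
      change Y.cd r u ++ s ∈ (f (Y.cd r u ++ s).length).κ.σ.A
      rw [List.length_append, hs]
      exact hm
  · intro z s s' hs hs' h1 h2
    change z ++ s ∈ (f (z ++ s).length).κ.σ.A at h1
    change z ++ s' ∈ (f (z ++ s').length).κ.σ.A at h2
    rw [List.length_append, hs] at h1
    rw [List.length_append, hs'] at h2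
    exact (f _).κ.uniq z s s' hs hs' h1 h2

end Pool.Agent.MP_92db0f_lc_alg
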