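import Pool.Agent.MP_92db0f_lc_alg.Defs

/-!
Polynomials that vanish at given points and are the indicator function of a string on `{0,1}^n`.
-/

set_option autoImplicit false

namespace Pool.Agent.MP_92db0f_lc_alg

open MvPolynomial

section one

variable {K : Type} [Field K] {n : ℕ}

/-- the Boolean point of a string -/
def bpt (K : Type) [Field K] {n : ℕ} (x : Fin n → Bool) : Fin n → K :=
  fun j => if x j then 1 else 0

/-- the multilinear indicator polynomial of a string -/
noncomputable def dl (K : Type) [Field K] {n : ℕ} (z : Fin n → Bool) : MvPolynomial (Fin n) K :=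
  ∏ j, (if z j then X j else 1 - X j)

lemma degreeOf_dl (z : Fin n → Bool) (j : Fin n) : (dl K z).degreeOf j ≤ 1 := by
  classical
  unfold dl
  refine (degreeOf_prod_le _ _ _).trans ?_
  have h : ∀ i ∈ (Finset.univ : Finset (Fin n)),
      degreeOf j (if z i then X i else 1 - X i : MvPolynomial (Fin n) K) ≤ if i = j then 1 else 0 := by
    intro i _
    have hX : degreeOf j (X i : MvPolynomial (Fin n) K) ≤ if i = j then 1 else 0 := by
      rw [degreeOf_X]
      split_ifs with h1 h2 h2
      · exact le_rfl
      · exact absurd h1.symm h2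
      · omega
      · exact le_rfl
    split_ifs with h1 h2 h2
    · simpa [h2] using hX
    · simpa [h2] using hX
    · refine (degreeOf_sub_le _ _ _).trans ?_
      have h3 : degreeOf j (1 : MvPolynomial (Fin n) K) = 0 := by
        rw [← C_1]; exact degreeOf_C 1 j
      rw [h3]
      simpa [h2] using hX
    · refine (degreeOf_sub_le _ _ _).trans ?_
      have h3 : degreeOf j (1 : MvPolynomial (Fin n) K) = 0 := by
        rw [← C_1]; exact degreeOf_C 1 j
      rw [h3]
      simpa [h2] using hX
  refine (Finset.sum_le_sum h).trans ?_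
  simp

lemma eval_dl (z x : Fin n → Bool) : eval (bpt K x) (dl K z) = if x = z then 1 else 0 := by
  classical
  unfold dl
  rw [map_prod]
  have h : ∀ i, eval (bpt K x) (if z i then X i else 1 - X i : MvPolynomial (Fin n) K) =
      if x i = z i then 1 else 0 := by
    intro i
    cases hz : z i <;> cases hx : x i <;> simp [bpt, hx]
  rw [Finset.prod_congr rfl fun i _ => h i]
  by_cases hxz : x = z
  · rw [if_pos hxz]
    exact Finset.prod_eq_one fun i _ => by rw [hxz, if_pos rfl]
  · rw [if_neg hxz]
    obtain ⟨i, hi⟩ := Function.ne_iff.1 hxz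
    exact Finset.prod_eq_zero (Finset.mem_univ i) (if_neg hi)

/-- there is a polynomial of degree at most 2 in each variable that vanishes at the points of `Y`
and is the indicator function of `z` on `{0,1}^n` -/
def Good (Y : Finset (Fin n → K)) (z : Fin n → Bool) : Prop :=
  ∃ g : MvPolynomial (Fin n) K, (∀ j, g.degreeOf j ≤ 2) ∧ (∀ y ∈ Y, eval y g = 0) ∧
    ∀ x, eval (bpt K x) g = if x = z then 1 else 0

open Classical in
/-- At most `|Y|` strings are bad. -/
lemma card_bad (Y : Finset (Fin n → K)) (Z : Finset (Fin n → Bool)) :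
    (Z.filter fun z => ¬ Good Y z).card ≤ Y.card := by
  by_contra hlt
  push Not at hlt
  set B := Z.filter fun z => ¬ Good Y z with hB
  let T : (B → K) →ₗ[K] (Y → K) :=
    { toFun := fun f y => ∑ z : B, f z * eval (y : Fin n → K) (dl K (z : Fin n → Bool))
      map_add' := fun f g => by
        funext y
        simp only [Pi.add_apply, add_mul, Finset.sum_add_distrib]
      map_smul' := fun c f => by
        funext y
        simp only [Pi.smul_apply, smul_eq_mul, RingHom.id_apply, Finset.mul_sum, mul_assoc] }
  have hker : LinearMap.ker T ≠ ⊥ := by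
    apply LinearMap.ker_ne_bot_of_finrank_lt
    rw [Module.finrank_fintype_fun_eq_card, Module.finrank_fintype_fun_eq_card,
      Fintype.card_coe, Fintype.card_coe]
    exact hlt
  obtain ⟨f, hf, hf0⟩ := Submodule.exists_mem_ne_zero_of_ne_bot hker
  obtain ⟨z, hz⟩ := Function.ne_iff.1 hf0
  rw [Pi.zero_apply] at hz
  have hzB : ¬ Good Y (z : Fin n → Bool) := (Finset.mem_filter.1 z.2).2
  apply hzB
  let P : MvPolynomial (Fin n) K := ∑ w : B, C (f w) * dl K (w : Fin n → Bool)
  have hPdeg : ∀ j, P.degreeOf j ≤ 1 := by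
    intro j
    refine (degreeOf_sum_le _ _ _).trans ?_
    apply Finset.sup_le
    intro w _
    refine (degreeOf_C_mul_le _ _ _).trans (degreeOf_dl _ _)
  have hPev : ∀ x, eval (bpt K x) P = ∑ w : B, f w * if x = w then 1 else 0 := by
    intro x
    simp only [P, map_sum, map_mul, eval_C, eval_dl]
  refine ⟨C (f z)⁻¹ * (P * dl K (z : Fin n → Bool)), ?_, ?_, ?_⟩
  · intro j
    refine (degreeOf_C_mul_le _ _ _).trans ((degreeOf_mul_le _ _ _).trans ?_)
    have := hPdeg j
    have := degreeOf_dl (K := K) (z : Fin n → Bool) j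
    omega
  · intro y hy
    have h1 : T f = 0 := hf
    have h2 := congrFun h1 ⟨y, hy⟩
    change ∑ w : B, f w * eval y (dl K (w : Fin n → Bool)) = 0 at h2
    have h3 : eval y P = 0 := by
      simp only [P, map_sum, map_mul, eval_C]
      exact h2
    rw [map_mul, map_mul, h3, zero_mul, mul_zero]
  · intro x
    rw [map_mul, map_mul, hPev, eval_dl, eval_C]
    by_cases hxz : x = z
    · rw [if_pos hxz, mul_one, Finset.sum_eq_single z]
      · rw [if_pos hxz, mul_one, inv_mul_cancel₀ hz]
      · intro w _ hw
        rw [if_neg, mul_zero]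
        intro h
        exact hw (Subtype.ext (h.symm.trans hxz))
      · intro h
        exact absurd (Finset.mem_univ _) h
    · rw [if_neg hxz, mul_zero, mul_zero]

end one

section all

variable {K : ℕ → Type} [∀ i, Field (K i)]

/-- a sample point: the number of variables, the number of the field, and the point -/
abbrev Pt (K : ℕ → Type) : Type := (n : ℕ) × (i : ℕ) × (Fin n → K i)

open Classical in
/-- Among more than `|S|` strings of length `n` there is one such that over every field some
polynomial of degree at most 2 in each variable is its indicator function on `{0,1}^n` and vanishes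
at all points in `S`. -/
lemma exists_good (S : Finset (Pt K)) (n : ℕ) (Z : Finset (Fin n → Bool)) (hZ : S.card < Z.card) :
    ∃ z ∈ Z, ∀ i, ∃ g : MvPolynomial (Fin n) (K i), (∀ j, g.degreeOf j ≤ 2) ∧
      (∀ y : Fin n → K i, (⟨n, i, y⟩ : Pt K) ∈ S → eval y g = 0) ∧
      ∀ x, eval (bpt (K i) x) g = if x = z then 1 else 0 := by
  -- the points of `S` over the field `K i` in dimension `n`
  have hinj : ∀ i, Function.Injective (fun y : Fin n → K i => (⟨n, i, y⟩ : Pt K)) := by
    intro i y y' h
    simpa using h
  let Y : (i : ℕ) → Finset (Fin n → K i) := fun i => S.preimage (fun y => ⟨n, i, y⟩) (hinj i).injOn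
  have hmem : ∀ (i : ℕ) (y : Fin n → K i), y ∈ Y i → (⟨n, i, y⟩ : Pt K) ∈ S := fun i y hy =>
    (Finset.mem_preimage (f := fun y : Fin n → K i => (⟨n, i, y⟩ : Pt K))).1 hy
  let I : Finset ℕ := S.image fun p => p.2.1
  let B : ℕ → Finset (Fin n → Bool) := fun i => Z.filter fun z => ¬ Good (Y i) z
  have hY : ∀ i, (Y i).card ≤ (S.filter fun p => p.2.1 = i).card := by
    intro i
    have h1 : ((Y i).image fun y => (⟨n, i, y⟩ : Pt K)) ⊆ S.filter fun p => p.2.1 = i := by
      intro p hp
      obtain ⟨y, hy, rfl⟩ := Finset.mem_image.1 hp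
      rw [Finset.mem_filter]
      exact ⟨hmem i y hy, rfl⟩
    have h2 := Finset.card_le_card h1
    rwa [Finset.card_image_of_injective _ (hinj i)] at h2
  have hcard : (I.biUnion B).card ≤ S.card := by
    refine Finset.card_biUnion_le.trans ?_
    calc ∑ i ∈ I, (B i).card ≤ ∑ i ∈ I, (S.filter fun p => p.2.1 = i).card :=
          Finset.sum_le_sum fun i _ => (card_bad _ _).trans (hY i)
      _ = S.card := by
          rw [← Finset.card_eq_sum_card_image (f := fun p : Pt K => p.2.1)]
  obtain ⟨z, hz, hzB⟩ : ∃ z ∈ Z, z ∉ I.biUnion B := by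
    by_contra hcon
    push Not at hcon
    have := Finset.card_le_card (fun z hz => hcon z hz : Z ⊆ I.biUnion B)
    omega
  refine ⟨z, hz, fun i => ?_⟩
  have hgood : Good (Y i) z := by
    by_cases hi : i ∈ I
    · by_contra hbad
      exact hzB (Finset.mem_biUnion.2 ⟨i, hi, Finset.mem_filter.2 ⟨hz, hbad⟩⟩)
    · have hYe : Y i = ∅ := by
        rw [Finset.eq_empty_iff_forall_notMem]
        intro y hy
        exact hi (Finset.mem_image.2 ⟨_, hmem i y hy, rfl⟩)
      refine ⟨dl (K i) z, fun j => (degreeOf_dl z j).trans (by norm_num), ?_, eval_dl z⟩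
      intro y hy
      rw [hYe] at hy
      exact absurd hy (Finset.notMem_empty _)
  obtain ⟨g, h1, h2, h3⟩ := hgood
  exact ⟨g, h1, fun y hy => h2 y (Finset.mem_preimage.2 hy), h3⟩

end all

end Pool.Agent.MP_92db0f_lc_alg
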